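import Pool.Agent.H15.SC.DefsX

/-!
Block B5 (MP_f2954d_ag), part 1: birational targets on `X` (helper15).
-/

namespace SC

/-! ### Charts, centres, prime divisors -/

/-- XA1: the fraction field of every chart is `K` -/
def T_XA1 : Prop := ∀ (K : Type) [Field K] [Algebra ℂ K] (N n : ℕ) (w : Fin (N + 1) → K),
  IsSmoothProj w n → ∀ i, w i ≠ 0 → IsFractionRing (chart w i) K

/-- XA2: homogenisation -/
def T_XA2 : Prop := ∀ (K : Type) [Field K] [Algebra ℂ K] (N : ℕ) (w : Fin (N + 1) → K)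
  (i i' : Fin (N + 1)), w i ≠ 0 → w i' ≠ 0 → ∀ a ∈ chart w i', ∃ d : ℕ, ∀ e : ℕ, d ≤ e →
  a * (w i' / w i) ^ e ∈ chart w i

/-- XA: every valuation ring contains the local ring of a closed point -/
def T_XA : Prop := ∀ (K : Type) [Field K] [Algebra ℂ K] (N n : ℕ) (w : Fin (N + 1) → K),
  IsSmoothProj w n → ∀ A : ValuationSubring K, (∀ c : ℂ, algebraMap ℂ K c ∈ A) →
  ∃ i, w i ≠ 0 ∧ ∃ p : Ideal (chart w i), p.IsMaximal ∧ ∀ x, InLoc p x → x ∈ A

/-- XB: a prime divisor passes through `p` iff its valuation ring contains the local ring -/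
def T_XB : Prop := ∀ (K : Type) [Field K] [Algebra ℂ K] (N : ℕ) (w : Fin (N + 1) → K)
  (i : Fin (N + 1)) (p : Ideal (chart w i)) (v : PDiv w), p.IsMaximal →
  (Through v p ↔ ∀ x, InLoc p x → 0 ≤ v.1.ord x)

/-- XC: a prime divisor is the localisation of every chart on which it is nonnegative -/
def T_XC : Prop := ∀ (K : Type) [Field K] [Algebra ℂ K] (N n : ℕ) (w : Fin (N + 1) → K),
  IsSmoothProj w n → ∀ (v : PDiv w) (i : Fin (N + 1)), w i ≠ 0 →
  (∀ a ∈ chart w i, 0 ≤ v.1.ord a) → ∀ x : K, 0 ≤ v.1.ord x →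
  ∃ a ∈ chart w i, ∃ b ∈ chart w i, b ≠ 0 ∧ v.1.ord b = 0 ∧ x = a / b

/-- XD: a function has zeros or poles along finitely many prime divisors only -/
def T_XD : Prop := ∀ (K : Type) [Field K] [Algebra ℂ K] (N n : ℕ) (w : Fin (N + 1) → K),
  IsSmoothProj w n → ∀ f : K, {v : PDiv w | v.1.ord f ≠ 0}.Finite

/-- XU: the valuation of a prime element of a factorial ring -/
def T_XU : Prop := ∀ (k O K : Type) [Field k] [CommRing O] [IsDomain O]
  [UniqueFactorizationMonoid O] [Field K] [Algebra O K] [IsFractionRing O K] [Algebra k O]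
  [Algebra k K] [IsScalarTower k O K] (π : O), Prime π →
  ∃ v : DV k K, ∀ (a : O) (m : ℕ), a ≠ 0 → ((m : ℤ) ≤ v.ord (algebraMap O K a) ↔ π ^ m ∣ a)

/-- XE: local equations -/
def T_XE : Prop := ∀ (K : Type) [Field K] [Algebra ℂ K] (N n : ℕ) (w : Fin (N + 1) → K),
  IsSmoothProj w n → ∀ (D : DivZ w) (i : Fin (N + 1)) (p : Ideal (chart w i)), w i ≠ 0 →
  p.IsMaximal → ∃ f : K, GenAt D p f

/-- XF: a function without poles through `p` is regular at `p` -/
def T_XF : Prop := ∀ (K : Type) [Field K] [Algebra ℂ K] (N n : ℕ) (w : Fin (N + 1) → K),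
  IsSmoothProj w n → ∀ (i : Fin (N + 1)) (p : Ideal (chart w i)) (x : K), w i ≠ 0 →
  p.IsMaximal → x ≠ 0 → (∀ v : PDiv w, Through v p → 0 ≤ v.1.ord x) → InLoc p x

/-- XG: the centre of a valuation which is not a prime divisor is small -/
def T_XG : Prop := ∀ (K : Type) [Field K] [Algebra ℂ K] (N n : ℕ) (w : Fin (N + 1) → K),
  IsSmoothProj w n → ∀ v : DV ℂ K, ¬ IsPrimeDivisor w v → ∀ i, w i ≠ 0 →
  (∀ a ∈ chart w i, 0 ≤ v.ord a) → ∃ F : IntermediateField ℂ v.Res,
  (∀ a ∈ chart w i, v.red a ∈ F) ∧ Algebra.trdeg ℂ F + 2 ≤ (n : Cardinal)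

/-- XH1: the residue field of a prime divisor is generated by the residues of a chart -/
def T_XH1 : Prop := ∀ (K : Type) [Field K] [Algebra ℂ K] (N n : ℕ) (w : Fin (N + 1) → K),
  IsSmoothProj w n → ∀ (v : PDiv w) (i : Fin (N + 1)), w i ≠ 0 →
  (∀ a ∈ chart w i, 0 ≤ v.1.ord a) →
  IntermediateField.adjoin ℂ (Set.range fun j => v.1.red (w j / w i)) = ⊤

/-- XH2: the residue field of a prime divisor has transcendence degree `n - 1` -/
def T_XH2 : Prop := ∀ (K : Type) [Field K] [Algebra ℂ K] (N n : ℕ) (w : Fin (N + 1) → K),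
  IsSmoothProj w (n + 1) → ∀ v : PDiv w, Algebra.EssFiniteType ℂ v.1.Res ∧
  Algebra.trdeg ℂ v.1.Res = (n : Cardinal)

/-- XI: the function field is finitely generated -/
def T_XI : Prop := ∀ (K : Type) [Field K] [Algebra ℂ K] (N n : ℕ) (w : Fin (N + 1) → K),
  IsSmoothProj w n → Algebra.EssFiniteType ℂ K

/-! ### Generating systems -/

/-- XJ: a globally generated divisor has a finite generating system -/
def T_XJ : Prop := ∀ (K : Type) [Field K] [Algebra ℂ K] (N n : ℕ) (w : Fin (N + 1) → K),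
  IsSmoothProj w n → ∀ D : DivZ w, GloballyGenerated D ↔ ∃ S, GenSys D S

/-- XL1: the order of a generating system at a valuation centred at `p` -/
def T_XL1 : Prop := ∀ (K : Type) [Field K] [Algebra ℂ K] (N n : ℕ) (w : Fin (N + 1) → K),
  IsSmoothProj w n → ∀ (D : DivZ w) (S : Sys K) (i : Fin (N + 1)) (p : Ideal (chart w i)) (x : K),
  GenSys D S → w i ≠ 0 → p.IsMaximal → GenAt D p x →
  (∀ v : DV ℂ K, (∀ y, InLoc p y → 0 ≤ v.ord y) → v.mo S = v.ord x) ∧
  ∀ (v : DV ℂ K) (u : DV ℂ v.Res),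
    (∀ y, InLoc p y → 0 ≤ v.ord y ∧ 0 ≤ u.ord (v.red y)) →
    u.mo (v.res S) = u.ord (v.red (x * v.unif ^ (- v.mo S)))

/-- XL2: additivity of the orders of generating systems; value at prime divisors -/
def T_XL2 : Prop := ∀ (K : Type) [Field K] [Algebra ℂ K] (N n : ℕ) (w : Fin (N + 1) → K),
  IsSmoothProj w n → ∀ (D D' : DivZ w) (S S' T : Sys K), GenSys D S → GenSys D' S' →
  GenSys (D + D') T → (∀ v : DV ℂ K, v.mo T = v.mo S + v.mo S') ∧
  (∀ v : PDiv w, v.1.mo S = - D v) ∧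
  ∀ (v : DV ℂ K) (u : DV ℂ v.Res), u.mo (v.res T) = u.mo (v.res S) + u.mo (v.res S')

/-- XL3: effective divisors not containing `v` restrict to effective divisors -/
def T_XL3 : Prop := ∀ (K : Type) [Field K] [Algebra ℂ K] (N n : ℕ) (w : Fin (N + 1) → K),
  IsSmoothProj w n → ∀ (D D' : DivZ w) (S S' : Sys K), GenSys D S → GenSys D' S' →
  (∀ v : PDiv w, D' v ≤ D v) → ∀ v : PDiv w, D' v = D v →
  ∀ u : DV ℂ v.1.Res, u.mo (v.1.res S) ≤ u.mo (v.1.res S')

/-- XL4: effective divisors at all valuations -/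
def T_XL4 : Prop := ∀ (K : Type) [Field K] [Algebra ℂ K] (N n : ℕ) (w : Fin (N + 1) → K),
  IsSmoothProj w n → ∀ (D D' : DivZ w) (S S' : Sys K), GenSys D S → GenSys D' S' →
  (∀ v : PDiv w, D' v ≤ D v) → ∀ v : DV ℂ K, v.mo S ≤ v.mo S'

/-- XK: the sections of `m D` are described by all valuations -/
def T_XK : Prop := ∀ (K : Type) [Field K] [Algebra ℂ K] (N n : ℕ) (w : Fin (N + 1) → K),
  IsSmoothProj w n → ∀ (D : DivZ w) (S : Sys K), GenSys D S → ∀ m : ℕ,
  sections (m • D) = Hs ℂ [((m : ℤ), S)]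

/-- XP: products of generating systems -/
def T_XP : Prop := ∀ (K : Type) [Field K] [Algebra ℂ K] (N : ℕ) (w : Fin (N + 1) → K)
  (D D' : DivZ w) (S S' : Sys K), GenSys D S → GenSys D' S' → GenSys (D + D') (S.mul S')

/-! ### The hyperplane divisor -/

/-- XN: the hyperplane divisor exists and is generated by the coordinates -/
def T_XN : Prop := ∀ (K : Type) [Field K] [Algebra ℂ K] (N n : ℕ) (w : Fin (N + 1) → K),
  IsSmoothProj w n → ∀ i₀, w i₀ ≠ 0 → (∃ H₀ : DivZ w, IsHyp i₀ H₀) ∧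
  ∀ H₀ : DivZ w, IsHyp i₀ H₀ → GenSys H₀ (hsys w i₀)

/-- XO: the hyperplane divisor is ample -/
def T_XO : Prop := ∀ (K : Type) [Field K] [Algebra ℂ K] (N n : ℕ) (w : Fin (N + 1) → K),
  IsSmoothProj w n → ∀ (i₀ : Fin (N + 1)) (H₀ : DivZ w), IsHyp i₀ H₀ → Ample H₀

/-- XQ: formal properties of very ample divisors -/
def T_XQ : Prop := ∀ (K : Type) [Field K] [Algebra ℂ K] (N n : ℕ) (w : Fin (N + 1) → K),
  IsSmoothProj w n → ∀ (i₀ : Fin (N + 1)) (H₀ : DivZ w), IsHyp i₀ H₀ →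
  (∀ D D' : DivZ w, VAmp H₀ D → VAmp H₀ D' → VAmp H₀ (D + D')) ∧
  (∀ D : DivZ w, VAmp H₀ D → Ample D) ∧
  (∀ H : DivZ w, Ample H → ∀ D : DivZ w, ∃ m₀ : ℕ, ∀ m : ℕ, m₀ ≤ m → VAmp H₀ (D + m • H)) ∧
  (∀ D : DivZ w, VAmp H₀ D ↔ ∃ T, Nice i₀ H₀ D T) ∧
  (∀ (D D' : DivZ w) (T T' : Sys K), Nice i₀ H₀ D T → Nice i₀ H₀ D' T' →
    Nice i₀ H₀ (D + D') (T.mul T')) ∧
  (∀ (D : DivZ w) (T : Sys K), Nice i₀ H₀ D T → GenSys D T ∧ T.Nz)

/-- XR1: good systems generate the function field -/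
def T_XR1 : Prop := ∀ (K : Type) [Field K] [Algebra ℂ K] (N n : ℕ) (w : Fin (N + 1) → K),
  IsSmoothProj w n → ∀ (i₀ : Fin (N + 1)) (H₀ D : DivZ w) (T : Sys K), IsHyp i₀ H₀ →
  Nice i₀ H₀ D T → Generates ℂ T

/-- XR2: good systems generate the residue fields of the prime divisors -/
def T_XR2 : Prop := ∀ (K : Type) [Field K] [Algebra ℂ K] (N n : ℕ) (w : Fin (N + 1) → K),
  IsSmoothProj w n → ∀ (i₀ : Fin (N + 1)) (H₀ D : DivZ w) (T : Sys K), IsHyp i₀ H₀ →
  Nice i₀ H₀ D T → ∀ v : PDiv w, Generates ℂ (v.1.res T)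

/-- XR3: generation on a generic section -/
def T_XR3 : Prop := ∀ (k K L J : Type) [Field k] [Field K] [Field L] [Algebra k K] [Algebra K L]
  [Algebra k L] [IsScalarTower k K L] (S : J → Sys K) (U : Var S → L) (T : Sys K),
  IsGen S U → Generates k T → Generates (kU k U) (T.up L)

/-- XR4: generation of the residue field of a type P valuation -/
def T_XR4 : Prop := ∀ (k K L J : Type) [Field k] [Field K] [Field L] [Algebra k K] [Algebra K L]
  [Algebra k L] [IsScalarTower k K L] (S : J → Sys K) (U : Var S → L) (T : Sys K)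
  (v : DV (kU k U) L), (∀ x : K, v.ord (algebraMap K L x) = 0) → T.Nz →
  IntermediateField.adjoin (kU k U) (Set.range fun x : K => v.red (algebraMap K L x)) = ⊤ →
  Generates k T → Generates (kU k U) (v.res (T.up L))

/-! ### The index -/

/-- IZ: systems with elements in a small subfield -/
def T_IZ : Prop := ∀ (k K J : Type) [Field k] [Field K] [Algebra k K] [Fintype J]
  (F : IntermediateField k K) (S : J → Sys K), (∀ j, (S j).Nz) → (∀ j l, (S j).s l ∈ F) →
  Algebra.trdeg k F < (Fintype.card J : Cardinal) → Idx S k = 0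

/-- XS: the index of globally generated divisors vanishes at a valuation which is not a prime
divisor -/
def T_XS : Prop := ∀ (K : Type) [Field K] [Algebra ℂ K] (N n : ℕ) (w : Fin (N + 1) → K),
  IsSmoothProj w n → ∀ (J : Type) [Fintype J] (S : J → Sys K), Fintype.card J + 1 = n →
  (∀ j, ∃ D : DivZ w, GenSys D (S j)) → ∀ v : DV ℂ K, ¬ IsPrimeDivisor w v →
  Idx (fun j => v.res (S j)) ℂ = 0

/-- IR: the index only depends on the minimal orders -/
def T_IR : Prop := ∀ (k K J : Type) [Field k] [CharZero k] [Field K] [Algebra k K]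
  [Algebra.EssFiniteType k K] [Fintype J] (S S' : J → Sys K), (∀ j, (S j).Nz) →
  (∀ j, (S' j).Nz) → Algebra.trdeg k K = (Fintype.card J : ℕ) →
  (∀ j (v : DV k K), v.mo (S j) = v.mo (S' j)) → Idx S k = Idx S' k

open Classical in
/-- IA: additivity in every argument -/
def T_IA : Prop := ∀ (k K J : Type) [Field k] [CharZero k] [Field K] [Algebra k K]
  [Algebra.EssFiniteType k K] [Fintype J] (S : J → Sys K) (j : J) (s t : Sys K),
  (∀ j, (S j).Nz) → s.Nz → t.Nz → Algebra.trdeg k K = (Fintype.card J : ℕ) →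
  Idx (Function.update S j (s.mul t)) k =
    Idx (Function.update S j s) k + Idx (Function.update S j t) k

end SC
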