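import Pool.Agent.H15.SC.C1

/-!
Module C3 of MP_f2954d_ag (helper15): the class of a type P valuation.
-/

namespace Pool.Agent.H15.SC

open _root_.SC Pool.Agent.H18.KN

section TypeP

variable {K k' L J : Type} [Field K] [Field k'] [Field L] [Algebra K L] [Algebra k' L]
  {S : J → Sys K} {U : Var S → L} {i0 : ∀ j, Fin (S j).r}

/-- orders of polynomials at a `p`-adic valuation -/
theorem ord_poly (hU : IsGen S U) (hi0 : ∀ j, (S j).s (i0 j) ≠ 0) (w : DV k' L)
    {p : MvPolynomial {x : Var S // x.2 ≠ i0 x.1} K} (hp : Irreducible p)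
    (hp1 : w.ord (MvPolynomial.aeval (fun x : {x : Var S // x.2 ≠ i0 x.1} => U x.1) p) = 1)
    (hpq : ∀ q : MvPolynomial {x : Var S // x.2 ≠ i0 x.1} K, ¬ p ∣ q →
      w.ord (MvPolynomial.aeval (fun x : {x : Var S // x.2 ≠ i0 x.1} => U x.1) q) = 0)
    {q : MvPolynomial {x : Var S // x.2 ≠ i0 x.1} K} (hq : q ≠ 0) :
    w.ord (MvPolynomial.aeval (fun x : {x : Var S // x.2 ≠ i0 x.1} => U x.1) q) =
      multiplicity p q := by
  obtain ⟨c, hc, hc'⟩ := (FiniteMultiplicity.of_not_isUnit hp.not_isUnit hq).exists_eq_pow_mul_and_not_dvd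
  have hc0 : c ≠ 0 := by
    rintro rfl
    exact hc' (dvd_zero _)
  have h1 : MvPolynomial.aeval (fun x : {x : Var S // x.2 ≠ i0 x.1} => U x.1) q =
      MvPolynomial.aeval (fun x : {x : Var S // x.2 ≠ i0 x.1} => U x.1) p ^ multiplicity p q *
      MvPolynomial.aeval (fun x : {x : Var S // x.2 ≠ i0 x.1} => U x.1) c := by
    conv_lhs => rw [hc]
    rw [map_mul, map_pow]
  rw [h1, w.ord_mul _ _ (pow_ne_zero _ (_root_.SC.H20.aeval_ne hU i0 hi0 p hp.ne_zero))
    (_root_.SC.H20.aeval_ne hU i0 hi0 c hc0), w.ord_pow, hp1, hpq c hc']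
  simp

/-- two `p`-adic valuations for associated polynomials agree -/
theorem typeP_unique {w w' : DV k' L} (hU : IsGen S U) (hi0 : ∀ j, (S j).s (i0 j) ≠ 0)
    {p p' : MvPolynomial {x : Var S // x.2 ≠ i0 x.1} K} (hp : Irreducible p)
    (hp1 : w.ord (MvPolynomial.aeval (fun x : {x : Var S // x.2 ≠ i0 x.1} => U x.1) p) = 1)
    (hpq : ∀ q : MvPolynomial {x : Var S // x.2 ≠ i0 x.1} K, ¬ p ∣ q →
      w.ord (MvPolynomial.aeval (fun x : {x : Var S // x.2 ≠ i0 x.1} => U x.1) q) = 0)
    (hp' : Irreducible p')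
    (hp1' : w'.ord (MvPolynomial.aeval (fun x : {x : Var S // x.2 ≠ i0 x.1} => U x.1) p') = 1)
    (hpq' : ∀ q : MvPolynomial {x : Var S // x.2 ≠ i0 x.1} K, ¬ p' ∣ q →
      w'.ord (MvPolynomial.aeval (fun x : {x : Var S // x.2 ≠ i0 x.1} => U x.1) q) = 0)
    (hass : Associated p' p) : w' = w := by
  apply DV.ext
  funext y
  by_cases hy : y = 0
  · rw [hy, w.ord_zero, w'.ord_zero]
  obtain ⟨a, b, ha, hb, rfl⟩ := _root_.SC.H20.exists_frac hU i0 hi0 y hy
  have ha' := _root_.SC.H20.aeval_ne hU i0 hi0 a ha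
  have hb' := _root_.SC.H20.aeval_ne hU i0 hi0 b hb
  rw [w.ord_div ha' hb', w'.ord_div ha' hb']
  have e1 := ord_poly hU hi0 w hp hp1 hpq ha
  have e2 := ord_poly hU hi0 w hp hp1 hpq hb
  have e3 := ord_poly hU hi0 w' hp' hp1' hpq' ha
  have e4 := ord_poly hU hi0 w' hp' hp1' hpq' hb
  rw [multiplicity_eq_of_associated_left hass.symm] at e3 e4
  exact congrArg₂ _ (e3.trans e1.symm) (e4.trans e2.symm)

end TypeP

/-- C3 -/
theorem c3 (hV2r : T_V2r) (hG1a : T_G1a) (hG3t : T_G3t) (hG4 : T_G4) (hG4u : T_G4u)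
    (hG4t : T_G4t) (hGE : T_GE) (hM8 : T_M8) (hC1 : T_C1) (hC1g : T_C1g) (hC2 : T_C2) : T_C3 := by
  intro k K L J _ _ _ _ _ _ _ _ _ _ S U w i0 hS hU hi0 hind hw0 p hp hp1 hpq
  choose vG hvG using fun v : DV k K => hG4 k K L J v S U hS hU
  set f : L := MvPolynomial.aeval (fun x : {x : Var S // x.2 ≠ i0 x.1} => U x.1) p with hf
  refine ⟨fun v => - (vG v).ord f, ?_⟩
  intro J' _ T hT htr
  have hch : CharZero (kU k U) := charZero_of_injective_algebraMap (algebraMap k (kU k U)).injective
  obtain ⟨hess, -, htr1⟩ := hG3t k K L J S U _ hS hU hind htr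
  have htr2 : Algebra.trdeg (kU k U) L = (Fintype.card J' + 1 : ℕ) := by
    rw [htr1]
    congr 1
    omega
  have hT' : ∀ j, ((T j).up L).Nz := fun j => Sys.up_nz L (hT j)
  obtain ⟨hfin, hsum⟩ := hM8 (kU k U) L J' (fun j => (T j).up L) hT' htr2 f
  -- nontrivial valuations
  have hex : ∀ P : {w' : DV (kU k U) L // (∃ x : K, w'.ord (algebraMap K L x) ≠ 0) ∧
      Idx (fun j => w'.res ((T j).up L)) (kU k U) ≠ 0},
      ∃ v : DV k K, Gauss v P.1 S U ∧ Idx (fun j => P.1.res ((T j).up L)) (kU k U) =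
        Idx (fun j => v.res (Sum.elim S T j)) k := fun P =>
    hC1 k K L J J' S T U P.1 hS hT hU hind htr P.2.2 P.2.1
  choose V hV hVI using hex
  let e : {w' : DV (kU k U) L // (∃ x : K, w'.ord (algebraMap K L x) ≠ 0) ∧
      Idx (fun j => w'.res ((T j).up L)) (kU k U) ≠ 0} →
      {v : DV k K // Idx (fun j => v.res (Sum.elim S T j)) k ≠ 0} := fun P =>
    ⟨V P, by rw [← hVI P]; exact P.2.2⟩
  have he : Function.Bijective e := by
    constructor
    · intro P P' h
      have h1 : V P = V P' := congrArg Subtype.val h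
      have h2 := hV P'
      rw [← h1] at h2
      exact Subtype.ext (DV.ext (Pool.Agent.H65.KN.gauss_unique hG4u (V P) P'.1 P.1 S U hS hU h2 (hV P)))
    · rintro ⟨u, hu⟩
      have hW := hG1a L J' (fun j => (T j).up L) hT'
      set M := Gen (fun j => (T j).up L) with hM
      set W := genU (fun j => (T j).up L) with hWdef
      have hST : ∀ j, (Sum.elim S T j).Nz := by
        rintro (j | j)
        · exact hS j
        · exact hT j
      have hUW := g3 K L M J J' S T U W hS hT hU hW
      obtain ⟨-, w2, hw2⟩ := hGE k K M (J ⊕ J') u (Sum.elim S T) (joinU S T U W) hST hUW hu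
      let w' : DV (kU k U) L :=
        { ord := fun y => w2.ord (algebraMap L M y)
          ord_zero := by simp [w2.ord_zero]
          ord_mul := fun x y hx hy => by
            rw [map_mul, w2.ord_mul _ _ ((map_ne_zero _).2 hx) ((map_ne_zero _).2 hy)]
          ord_add := fun x y hx hy hxy => by
            rw [map_add]
            exact w2.ord_add _ _ ((map_ne_zero _).2 hx) ((map_ne_zero _).2 hy)
              (by rw [← map_add]; exact (map_ne_zero _).2 hxy)
          ord_base := fun c => by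
            have h1 : algebraMap L M (algebraMap (kU k U) L c) ∈ kU k (joinU S T U W) := by
              rw [joinU_eq]
              have h2 : kU k (Sum.elim W (algebraMap L M ∘ U) ∘ sumVar (L := L) S T) =
                  kU k (Sum.elim W (algebraMap L M ∘ U)) := by
                unfold kU
                congr 1
                exact (sumVar (L := L) S T).surjective.range_comp _
              rw [h2, mem_kU_two]
              exact (kU (kU k U) W).algebraMap_mem c
            exact w2.ord_base ⟨_, h1⟩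
          ord_surj := by
            obtain ⟨x, hx, hx'⟩ := u.ord_surj
            refine ⟨algebraMap K L x, (map_ne_zero _).2 hx, ?_⟩
            rw [← IsScalarTower.algebraMap_apply K L M, hw2.ordK, hx'] }
      have hG' : Gauss u w' S U := gauss_restrict hV2r hG4 hG4u hG4t u S T U W w' w2 hS hT hU
        (fun y => rfl) hw2
      have hI' := hC1g k K L J J' S T U u w' hS hT hU hind hG'
      obtain ⟨x, -, hx⟩ := u.ord_surj
      have hnt : ∃ x : K, w'.ord (algebraMap K L x) ≠ 0 := ⟨x, by rw [hG'.ordK, hx]; exact one_ne_zero⟩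
      refine ⟨⟨w', hnt, by rw [hI']; exact hu⟩, Subtype.ext (DV.ext ?_)⟩
      funext y
      exact ((hV ⟨w', hnt, by rw [hI']; exact hu⟩).ordK y).symm.trans (hG'.ordK y)
  classical
  have htrans := Pool.Agent.H65.KN.transfer e he
    (fun w' : DV (kU k U) L => if (∃ x : K, w'.ord (algebraMap K L x) ≠ 0) ∧
      Idx (fun j => w'.res ((T j).up L)) (kU k U) ≠ 0 then
      w'.ord f * (Idx (fun j => w'.res ((T j).up L)) (kU k U) : ℤ) else 0)
    (fun v : DV k K => (vG v).ord f * (Idx (fun j => v.res (Sum.elim S T j)) k : ℤ))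
    (fun w' hw' => by simp only [if_neg hw'])
    (fun v hv => by
      simp only [not_not] at hv
      rw [hv]; simp)
    (fun P => by
      simp only [if_pos P.2]
      show P.1.ord f * _ = (vG (V P)).ord f * _
      rw [hVI P, Pool.Agent.H65.KN.gauss_unique hG4u (V P) (vG (V P)) P.1 S U hS hU (hvG _) (hV P)])
  obtain ⟨t1, t2⟩ := htrans
  -- claim A
  have hA : ∀ w' : DV (kU k U) L, (∀ x : K, w'.ord (algebraMap K L x) = 0) →
      Idx (fun j => w'.res ((T j).up L)) (kU k U) ≠ 0 → w'.ord f ≠ 0 → w' = w := by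
    intro w' h1 h2 h3
    obtain ⟨p', hp', hp1', hpq'⟩ := hC2 k K L J J' S T U w' i0 hT hU hi0 hind htr h2 h1
    have h4 : p' ∣ p := by
      by_contra h
      exact h3 (hpq' p h)
    exact typeP_unique hU hi0 hp hp1 hpq hp' hp1' hpq' (hp'.associated_of_dvd hp h4)
  have hsplit : (fun w' : DV (kU k U) L =>
      w'.ord f * (Idx (fun j => w'.res ((T j).up L)) (kU k U) : ℤ)) =
      fun w' : DV (kU k U) L =>
        (if w' = w then (Idx (fun j => w.res ((T j).up L)) (kU k U) : ℤ) else 0) +
        (if (∃ x : K, w'.ord (algebraMap K L x) ≠ 0) ∧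
          Idx (fun j => w'.res ((T j).up L)) (kU k U) ≠ 0 then
          w'.ord f * (Idx (fun j => w'.res ((T j).up L)) (kU k U) : ℤ) else 0) := by
    funext w'
    by_cases h1 : w' = w
    · subst h1
      rw [if_pos rfl, if_neg, hp1]
      · ring
      · rintro ⟨⟨x, hx⟩, -⟩
        exact hx (hw0 x)
    · rw [if_neg h1, zero_add]
      split_ifs with h2
      · rfl
      · by_cases h3 : Idx (fun j => w'.res ((T j).up L)) (kU k U) = 0
        · rw [h3]; simp
        · by_cases h4 : w'.ord f = 0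
          · rw [h4, zero_mul]
          · exfalso
            apply h1
            refine hA w' ?_ h3 h4
            intro x
            by_contra h5
            exact h2 ⟨⟨x, h5⟩, h3⟩
  have hfin1 : (Function.support fun w' : DV (kU k U) L =>
      (if w' = w then (Idx (fun j => w.res ((T j).up L)) (kU k U) : ℤ) else 0)).Finite := by
    refine (Set.finite_singleton w).subset ?_
    intro w' hw'
    by_contra h
    exact hw' (if_neg h)
  have hfin2 : (Function.support fun w' : DV (kU k U) L =>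
      (if (∃ x : K, w'.ord (algebraMap K L x) ≠ 0) ∧
          Idx (fun j => w'.res ((T j).up L)) (kU k U) ≠ 0 then
          w'.ord f * (Idx (fun j => w'.res ((T j).up L)) (kU k U) : ℤ) else 0)).Finite := by
    refine hfin.subset ?_
    intro w' hw'
    rw [Function.mem_support] at hw'
    split_ifs at hw' with h
    · refine ⟨?_, h.2⟩
      intro h0
      rw [h0, zero_mul] at hw'
      exact hw' rfl
    · exact absurd rfl hw'
  have hsum' := hsum
  rw [hsplit, finsum_add_distrib hfin1 hfin2] at hsum'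
  have hsingle : ∑ᶠ w' : DV (kU k U) L,
      (if w' = w then (Idx (fun j => w.res ((T j).up L)) (kU k U) : ℤ) else 0) =
      (Idx (fun j => w.res ((T j).up L)) (kU k U) : ℤ) := by
    rw [finsum_eq_single _ w (fun w' hw' => if_neg hw'), if_pos rfl]
  rw [hsingle, t1] at hsum'
  constructor
  · refine (t2 hfin2).subset ?_
    rintro v ⟨h1, h2⟩
    show _ * _ ≠ _
    refine mul_ne_zero ?_ (by exact_mod_cast h2)
    intro h0
    exact h1 (by show -(vG v).ord f = 0; rw [h0, neg_zero])
  · have h6 : ∑ᶠ v : DV k K, -(vG v).ord f * (Idx (fun j => v.res (Sum.elim S T j)) k : ℤ) =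
        - ∑ᶠ v : DV k K, (vG v).ord f * (Idx (fun j => v.res (Sum.elim S T j)) k : ℤ) := by
      rw [← finsum_neg_distrib]
      exact finsum_congr fun v => by ring
    rw [h6]
    linarith

end Pool.Agent.H15.SC
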