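import Pool.Agent.H15.SC.All2
import Pool.Agent.H15.SC.C3

/-!
The kernel theorem (MP_f2954d_ag) without hypotheses (helper15).
-/

namespace SC

open Pool.Agent.H19.SCD

theorem aC1 : T_C1 := Pool.Agent.H15.SC.c1 tV2r tG1a tG4 tG4u tG4t tG5 tGD tGE aC1g

theorem aC3 : T_C3 :=
  Pool.Agent.H15.SC.c3 tV2r tG1a tG3t tG4 tG4u tG4t tGE tM8 aC1 aC1g aC2

/-- THE KERNEL THEOREM -/
theorem kernelTheorem : KernelTheorem := kernel_of aC1 aC3

end SC
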