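import Pool.Agent.H19.SCD.All2
import Pool.Agent.H2.SC.ADD
import Pool.Agent.H27.SCX.XA1
import Pool.Agent.H12.BX.XCF
import Pool.Agent.H4.SCX.XA
import Pool.Agent.H4.SCX.XH
import Pool.Agent.H4.SCX.I
import Pool.Agent.H18.KN.XG
import Pool.Agent.H18.KN.XS
import Pool.Agent.H18.KN.XU
import Pool.Agent.H54.SCX.IZ
import Pool.Agent.H54.SCX.XP
import Pool.Agent.H54.SCX.XR
import Pool.Agent.H70.SCX.XJ
import Pool.Agent.H70.SCX.XO
import Pool.Agent.H70.SCX.XH2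
import Pool.Agent.H36.SCX.XL

/-!
Block B5 (MP_f2954d_ag), part 1 without hypotheses (helper15).
-/

namespace SC

open Pool.Agent.H19.SCD

theorem aADD : T_ADD := Pool.Agent.H2.SC.add tM9

theorem aMON : T_MON := Pool.Agent.H2.SC.mon tM9

theorem aXA1 : T_XA1 := Pool.Agent.H27.SCX.xA1

theorem aXA2 : T_XA2 := Pool.Agent.H27.SCX.xA2

theorem aXB : T_XB := Pool.Agent.H27.SCX.xB

theorem aXA : T_XA := Pool.Agent.H4.SCX.xa

theorem aXC : T_XC := Pool.Agent.H12.BX.xc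

theorem aXD : T_XD := Pool.Agent.H12.BX.xd

theorem aXE : T_XE := Pool.Agent.H12.BX.xe

theorem aXF : T_XF := Pool.Agent.H12.BX.xf

theorem aXG : T_XG := Pool.Agent.H18.KN.xg

theorem aXU : T_XU := Pool.Agent.H18.KN.xu

theorem aXH1 : T_XH1 := Pool.Agent.H4.SCX.xh1 aXC

theorem aXH2 : T_XH2 := Pool.Agent.H70.SCX.xh2 tV3b aXA1 aXH1

theorem aXI : T_XI := Pool.Agent.H4.SCX.xi

theorem aXJ : T_XJ := Pool.Agent.H70.SCX.xj aXD

theorem aXL1 : T_XL1 := Pool.Agent.H36.SCX.xl1 aXF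

theorem aXL2 : T_XL2 := Pool.Agent.H36.SCX.xl2 aXF aXB aXA

theorem aXL3 : T_XL3 := Pool.Agent.H36.SCX.xl3 aXF aXB aXA

theorem aXL4 : T_XL4 := Pool.Agent.H36.SCX.xl4 aXF aXA

theorem aXK : T_XK := Pool.Agent.H4.SCX.xk aXA aXB aXF aXL1

theorem aXP : T_XP := Pool.Agent.H54.SCX.xp

theorem aXN : T_XN := Pool.Agent.H54.SCX.xn aXD

theorem aXO : T_XO := Pool.Agent.H70.SCX.xo aXE aXD

theorem aXQ : T_XQ := Pool.Agent.H4.SCX.xq aXJ aXP aXN aXO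

theorem aXR1 : T_XR1 := Pool.Agent.H4.SCX.xr1

theorem aXR2 : T_XR2 := Pool.Agent.H4.SCX.xr2 aXH1 aXA aXL1

theorem aXR3 : T_XR3 := Pool.Agent.H54.SCX.xr3

theorem aXR4 : T_XR4 := Pool.Agent.H54.SCX.xr4

theorem aIZ : T_IZ := Pool.Agent.H54.SCX.iz

theorem aXS : T_XS := Pool.Agent.H18.KN.xs aXA aXL1 aXF aIZ tG2s

theorem aIR : T_IR := Pool.Agent.H4.SCX.ir aMON tG2r

theorem aIA : T_IA := Pool.Agent.H4.SCX.ia aADD tG2r

end SC
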