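import Pool.Agent.H15.SC.Fin
import Pool.Agent.H17.FR.TargetsX

/-!
Block B5 (MP_f2954d_ag): finite dimension of the Neron-Severi space from block B7 (helper15).
-/

namespace SC

open SCB

theorem FDT : FR.T_FDX → FR.T_GFD → T_GEY → T_MX → T_XQ → T_XN → T_IN → T_GEC → T_FD := by
  intro hFDX hGFD hGE hMX hXQ hXN hIN hGEC K _ _ N n w μ hw hn hμ
  obtain ⟨m, rfl⟩ : ∃ m, n = m + 2 := ⟨n - 2, by omega⟩
  obtain ⟨i₀, hi₀⟩ := hw.nonzero
  obtain ⟨⟨H₀, hH⟩, -⟩ := hXN K N (m + 2) w hw i₀ hi₀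
  obtain ⟨X, hI, hG, hcl⟩ := hGE K N (m + 2) w i₀ H₀ μ hw hn hH hμ
  obtain ⟨q1, q2, q3, q4, q5, q6⟩ := hXQ K N (m + 2) w hw i₀ H₀ hH
  obtain ⟨⟨_, A₀, hA₀, q, hq, rfl⟩, -⟩ := hGEC K N (m + 2) w i₀ H₀ μ hw hH
  obtain ⟨T₀, hT₀⟩ := (q4 A₀).1 hA₀
  obtain ⟨in1, in2, in3, in4⟩ := hIN K N (m + 2) w μ hμ
  obtain ⟨r, hr⟩ := hFDX K N m w hw (Fin m) (fun _ => T₀) (by simp) (fun _ => (q6 A₀ T₀ hT₀).2)
  have hA : (NTsub μ).mkQ (toR A₀) ∈ X.G := by
    rw [hG]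
    exact ⟨A₀, hA₀, 1, one_pos, by simp⟩
  refine hGFD (NS μ) (PDiv w) m r X ((NTsub μ).mkQ (toR A₀)) hA ?_
  intro x y hx hy
  rw [hG] at hx hy
  choose D hD a ha hxe using hx
  choose E hE b hb hye using hy
  choose S hS using fun i => (q4 (D i)).1 (hD i)
  choose T hT using fun i => (q4 (E i)).1 (hE i)
  have key : ∀ i j, X.I (x i ::ₘ y j ::ₘ Multiset.replicate m ((NTsub μ).mkQ (toR A₀))) =
      (a i : ℝ) * ((b j : ℝ) * ((Idx (Sum.elim (fun _ : Unit => S i)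
      (Sum.elim (fun _ : Unit => T j) (fun _ : Fin m => T₀))) ℂ : ℤ) : ℝ)) := by
    intro i j
    rw [hI, hxe, hye, in3 _ _ _ (by simp), Multiset.cons_swap, in3 _ _ _ (by simp),
      Multiset.cons_swap]
    congr 2
    have h1 := in1 (toR (D i) ::ₘ toR (E j) ::ₘ Multiset.replicate m (toR A₀)) (by simp)
    rw [Multiset.map_cons, Multiset.map_cons, Multiset.map_replicate] at h1
    rw [h1]
    have h2 := hMX K N (m + 2) w i₀ H₀ μ hw (by omega) hH hμ (Unit ⊕ (Unit ⊕ Fin m))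
      (Sum.elim (fun _ => D i) (Sum.elim (fun _ => E j) (fun _ => A₀)))
      (Sum.elim (fun _ => S i) (Sum.elim (fun _ => T j) (fun _ => T₀))) (by simp; omega) (by
        rintro (k | k | k)
        · exact hS i
        · exact hT j
        · exact hT₀)
    rw [Int.cast_natCast, ← h2]
    congr 1
    rw [ms_elim1 (fun k : Unit ⊕ Fin m => toR (Sum.elim (fun _ => E j) (fun _ => A₀) k))
      (toR (D i)) _ (fun _ => rfl) rfl,
      ms_elim1 (fun k : Fin m => toR A₀) (toR (E j)) _ (fun _ => rfl) rfl]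
    congr 2
    simp [ms]
  simp_rw [key]
  have h3 : (Matrix.of fun i j => (a i : ℝ) * ((b j : ℝ) * ((Idx (Sum.elim (fun _ : Unit => S i)
      (Sum.elim (fun _ : Unit => T j) (fun _ : Fin m => T₀))) ℂ : ℤ) : ℝ))).det = 0 := by
    have h4 := Matrix.det_mul_column (fun i => (a i : ℝ)) (Matrix.of fun i j =>
      (b j : ℝ) * ((Idx (Sum.elim (fun _ : Unit => S i)
      (Sum.elim (fun _ : Unit => T j) (fun _ : Fin m => T₀))) ℂ : ℤ) : ℝ))
    have h5 := Matrix.det_mul_row (fun j => (b j : ℝ)) (Matrix.of fun i j =>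
      ((Idx (Sum.elim (fun _ : Unit => S i)
      (Sum.elim (fun _ : Unit => T j) (fun _ : Fin m => T₀))) ℂ : ℤ) : ℝ))
    simp only [Matrix.of_apply] at h4 h5
    rw [h4, h5]
    have h6 : (Matrix.of fun i j => ((Idx (Sum.elim (fun _ : Unit => S i)
      (Sum.elim (fun _ : Unit => T j) (fun _ : Fin m => T₀))) ℂ : ℤ) : ℝ)) =
      (Int.castRingHom ℝ).mapMatrix (Matrix.of fun i j => (Idx (Sum.elim (fun _ : Unit => S i)
      (Sum.elim (fun _ : Unit => T j) (fun _ : Fin m => T₀))) ℂ : ℤ)) := by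
      ext i j; rfl
    rw [h6, ← RingHom.map_det, hr D E S T (fun i => (q6 _ _ (hS i)).1) (fun i => (q6 _ _ (hT i)).1)]
    simp
  exact h3

end SC
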