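import Pool.Agent.H15.SC.TargetsY

/-!
Block B5 (MP_f2954d_ag): small lemmas on multisets of families indexed by sum types (helper15).
-/

namespace SCB

variable {N ι κ : Type} [Fintype ι] [Fintype κ]

lemma ms_sum (f : ι ⊕ κ → N) :
    ms f = ms (fun i => f (Sum.inl i)) + ms (fun i => f (Sum.inr i)) := by
  unfold ms
  rw [← Finset.univ_disjSum_univ]
  change Multiset.map f (Multiset.disjSum Finset.univ.val Finset.univ.val) = _
  simp [Multiset.disjSum]

lemma ms_fin2 (f : Fin 2 → N) : ms f = f 0 ::ₘ f 1 ::ₘ 0 := by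
  simp [ms, Fin.univ_succ, Multiset.map_cons]

lemma ms_fin3 (f : Fin 3 → N) : ms f = f 0 ::ₘ f 1 ::ₘ f 2 ::ₘ 0 := by
  simp [ms, Fin.univ_succ, Multiset.map_cons]

lemma ms_unit (f : Unit → N) : ms f = f () ::ₘ 0 := by
  simp [ms]

lemma ms_empty [IsEmpty ι] (f : ι → N) : ms f = 0 := by
  simp [ms]

/-- `ms` does not depend on the indexing -/
lemma ms_equiv (e : κ ≃ ι) (f : ι → N) : ms (fun j => f (e j)) = ms f := by
  unfold ms
  have : (Finset.univ : Finset ι) = Finset.univ.map e.toEmbedding := by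
    simp
  rw [this, Finset.map_val, Multiset.map_map]
  rfl

lemma ms_elim2 (f : ι → N) (g : Fin 2 → N) (h : ι ⊕ Fin 2 → N) (h1 : ∀ i, h (Sum.inl i) = f i)
    (h2 : ∀ i, h (Sum.inr i) = g i) : ms h = g 0 ::ₘ g 1 ::ₘ ms f := by
  rw [ms_sum, ms_fin2]
  simp only [h1, h2]
  rw [add_comm]
  simp only [Multiset.cons_add, zero_add]

lemma ms_elim3 (f : ι → N) (g : Fin 3 → N) (h : ι ⊕ Fin 3 → N) (h1 : ∀ i, h (Sum.inl i) = f i)
    (h2 : ∀ i, h (Sum.inr i) = g i) : ms h = g 0 ::ₘ g 1 ::ₘ g 2 ::ₘ ms f := by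
  rw [ms_sum, ms_fin3]
  simp only [h1, h2]
  rw [add_comm]
  simp only [Multiset.cons_add, zero_add]

lemma ms_elim1 (f : ι → N) (a : N) (h : Unit ⊕ ι → N) (h1 : ∀ i, h (Sum.inr i) = f i)
    (h2 : h (Sum.inl ()) = a) : ms h = a ::ₘ ms f := by
  rw [ms_sum, ms_unit]
  simp only [h1, h2]
  rfl

open Classical in
lemma ms_update (f : ι → N) (j : ι) (a : N) :
    ms (Function.update f j a) = a ::ₘ mss (Finset.univ.erase j) f := by
  rw [ms_erase _ j, Function.update_self]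
  congr 1
  exact mss_congr fun i hi => by
    rw [Function.update_of_ne (Finset.ne_of_mem_erase hi)]

end SCB
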