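import Pool.Agent.H15.SC.All1
import Pool.Agent.H15.SC.FDT
import Pool.Agent.H17.FR.All
import Pool.Agent.H16.SC.All
import Pool.Agent.H2.SC.C1g
import Pool.Agent.H70.KN.C2
import Pool.Agent.H87.SC.C4
import Pool.Agent.H87.SC.TypeP
import Pool.Agent.H87.SC.SG
import Pool.Agent.H87.SC.SD
import Pool.Agent.H87.SC.LG
import Pool.Agent.H37.SCX.GEC
import Pool.Agent.H99.B5.GEP
import Pool.Agent.H99.B5.IN
import Pool.Agent.H99.B5.MD
import Pool.Agent.H29.SCX.GES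
import Pool.Agent.H29.SCX.MX
import Pool.Agent.H29.SCX.SE
import Pool.Agent.H29.SCX.YLL
import Pool.Agent.H54.SCX.HX
import Pool.Agent.H54.SCX.PX
import Pool.Agent.H54.SCX.YPOL
import Pool.Agent.H27.SCX.YA
import Pool.Agent.H51.SCX.LF
import Pool.Agent.H51.SCX.SCL
import Pool.Agent.H12.BX.MDD
import Pool.Agent.H12.BX.MX0
import Pool.Agent.H16.SC.SPN
import Pool.Agent.H16.SC.SR
import Pool.Agent.H16.SC.SX

/-!
Block B5 (MP_f2954d_ag): everything without hypotheses, except `T_C1` and `T_C3` (helper15).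
-/

namespace SC

open Pool.Agent.H19.SCD

theorem aGL : SCB.T_GL := Pool.Agent.H16.SC.tGL

theorem aKT : SCB.T_KT := Pool.Agent.H16.SC.tKT

theorem aD1 : T_D1 := b4_all.d1

theorem aD2 : T_D2 := b4_all.d2

theorem aD4 : T_D4 := b4_all.d4

theorem aSIU : T_SIU := b4_all.siu

theorem aHOD : T_HOD := b4_all.hod

theorem aC1g : T_C1g := Pool.Agent.H2.SC.c1g tG2f tG2s tG3i

theorem aC2 : T_C2 := Pool.Agent.H70.KN.c2

theorem aC4a : T_C4a := Pool.Agent.H87.KN.c4a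

theorem aC4 : T_C4 := Pool.Agent.H87.KN.c4 aC2 tV6b tV6c tM1 tG1a tG1b tG1c tG2r tG3i tG3t

theorem aYPOL : T_YPOL := SC.ypol

theorem aMX0 : T_MX0 := Pool.Agent.H12.BX.mx0 aXQ aXK aXI aXR1 aD1 aD2

theorem aMX : T_MX := Pool.Agent.H29.SCX.mx aYPOL aMX0 aXQ aIR aXL2 aIA tG2r aGL aXI

theorem aSPN : T_SPN := H16SC.spn aXQ

theorem aIV : T_IV := SC.iv aXS aXL2 aXI tM9

theorem aMD : T_MD := Pool.Agent.H99.B5.md aMX aIV aSPN aXQ aGL

theorem aPX : T_PX := SC.px aXR1 aXI aXR2 aXH2 aXQ tPOS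

theorem aMDD : T_MDD := Pool.Agent.H12.BX.mdd aMD aXL3 aXH2 aSPN aXQ aMON aGL

theorem aYLL : T_YLL := Pool.Agent.H29.SCX.yll

theorem aHX : T_HX := SC.hx tG1a tG3i tG3t aHOD aXR3

theorem aLF : T_LF := Pool.Agent.H51.SCX.lf aYLL aMX aPX aHX aSPN aXQ aXR1 aXI aGL

theorem aLG : T_LG := Pool.Agent.H87.KN.lg aYLL aMD aPX aHX aSPN aXQ aXR2 aXH2 aGL

theorem aSG : T_SG := Pool.Agent.H87.KN.sg tG3i tG3t aSIU aXR3

theorem aSD : T_SD := Pool.Agent.H87.KN.sd tG3i tG3t tG2r tM8 tM9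

theorem aIN : T_IN := Pool.Agent.H99.B5.isn aGL

theorem aREP : T_REP := Pool.Agent.H27.SCX.REP

theorem aSCL : T_SCL := Pool.Agent.H51.SCX.scl aIN

theorem aGEC : T_GEC := Pool.Agent.H37.SCX.gec aSPN aXQ

theorem aGEP : T_GEP :=
  Pool.Agent.H99.B5.gep aREP aSCL aIN aMX aMD aPX aMDD aLF aLG aXQ

theorem aNEF : T_NEF := Pool.Agent.H27.SCX.NEF aXQ

theorem aNDI : T_NDI := Pool.Agent.H27.SCX.NDI aGL aIN

theorem aKRN : T_KRN := Pool.Agent.H27.SCX.KRN aGL aIN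

/-- the kernel theorem from the two missing parts -/
theorem kernel_of (hC1 : T_C1) (hC3 : T_C3) : KernelTheorem := by
  have hSR : T_SR := H16SC.sr hC1 aC1g aC2 aC4a aXR4 aXS aPX aXQ tPOS aXI aXR1
  have hSE : T_SE := Pool.Agent.H29.SCX.se hC1 aC1g aC2 hC3 aC4a aC4 hSR aXS aPX aMD aMX aSG aXR4
    aYLL aHOD aXQ aSPN aXI aGL tG1a aXR1
  have hSX : T_SX := H16SC.sx aGL aSG aSD hSE hSR aMX aSPN aXQ aXI aXR1 tG1a
  have hGES : T_GES := Pool.Agent.H29.SCX.ges aREP aSCL aIN hSX aXQ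
  have hGEY : T_GEY := GEY aIN aGEC aGEP hGES
  have hFD : T_FD := FDT FR.tFDX FR.tGFD hGEY aMX aXQ aXN aIN aGEC
  exact FIN hFD aKT hGEY aIN aNEF aNDI aKRN aXN

end SC
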