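import Pool.Agent.H18.KN.G3i
import Pool.Agent.H20.SC.G4
import Pool.Agent.H64.SC.Api
import Pool.Agent.H65.KN.M8
import Pool.Agent.H93.SC.Targets2

/-!
Modules C1 and C3 of MP_f2954d_ag (helper15).
-/

namespace Pool.Agent.H15.SC

open _root_.SC Pool.Agent.H18.KN

/-- a Gauss extension for `S` and `T` together restricts to a Gauss extension for `S` -/
theorem gauss_restrict (hV2r : T_V2r) (hG4 : T_G4) (hG4u : T_G4u) (hG4t : T_G4t)
    {k K k' k'' L M J J' : Type} [Field k] [Field K] [Field k'] [Field k''] [Field L] [Field M]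
    [Algebra k K] [Algebra K L] [Algebra k L] [IsScalarTower k K L] [Algebra L M] [Algebra K M]
    [IsScalarTower K L M] [Algebra k' L] [Algebra k'' M] [Finite J] [Finite J'] (v : DV k K)
    (S : J → Sys K) (T : J' → Sys K) (U : Var S → L) (W : Var (fun j => (T j).up L) → M)
    (w' : DV k' L) (w2 : DV k'' M) (hS : ∀ j, (S j).Nz) (hT : ∀ j, (T j).Nz) (hU : IsGen S U)
    (hord : ∀ y : L, w2.ord (algebraMap L M y) = w'.ord y)
    (hG : Gauss v w2 (Sum.elim S T) (joinU S T U W)) : Gauss v w' S U := by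
  have hO1 : Over v w' 1 := ⟨one_pos, fun x => by
    rw [← hord, ← IsScalarTower.algebraMap_apply K L M, hG.ordK]; simp⟩
  have hO2 : Over w' w2 1 := ⟨one_pos, fun x => by rw [hord]; simp⟩
  have hU0 : ∀ x, 0 ≤ w'.ord (U x) := by
    rintro ⟨j, i⟩
    rw [← hord]
    exact hG.nonneg ⟨Sum.inl j, i⟩
  obtain ⟨φ, hφ⟩ := hV2r k K k' L v w' 1 hO1
  obtain ⟨ψ, hψ⟩ := hV2r k' L k'' M w' w2 1 hO2
  obtain ⟨φ2, hφ2, hgen⟩ := hG.gen
  have hcomp : φ2 = ψ.comp φ := by
    refine ResCompat.unique hφ2 ?_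
    intro x hx
    rw [RingHom.comp_apply, hφ x hx, hψ _ ((hO1.nonneg_iff x).2 hx),
      ← IsScalarTower.algebraMap_apply K L M]
  have hpS : ∀ j, ∃ i, (S j).s i ≠ 0 ∧ v.ord ((S j).s i) = v.mo (S j) := fun j =>
    v.mo_exists (S j) (hS j)
  have hpT : ∀ j, ∃ i, (T j).s i ≠ 0 ∧ v.ord ((T j).s i) = v.mo (T j) := fun j =>
    v.mo_exists (T j) (hT j)
  choose i0 hi0 using hpS
  choose i1 hi1 using hpT
  let i2 : ∀ j : J ⊕ J', Fin (Sum.elim S T j).r := fun j => match j with
    | Sum.inl j => i0 j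
    | Sum.inr j => i1 j
  have hi2 : ∀ j, (v.res (Sum.elim S T j)).s (i2 j) ≠ 0 := by
    rintro (j | j)
    · exact (v.res_s_ne_zero_iff _ _).2 (hi0 j)
    · exact (v.res_s_ne_zero_iff _ _).2 (hi1 j)
  have hind := by
    letI : Algebra v.Res w2.Res := φ2.toAlgebra
    exact hgen.indep i2 hi2
  have hind1 : letI : Algebra v.Res w'.Res := φ.toAlgebra
      AlgebraicIndependent v.Res (fun x : {x : Var S // x.2 ≠ i0 x.1} => w'.red (U x.1)) := by
    apply _root_.SC.H20.indep_of_eval₂_ne φ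
    intro q hq h0
    let f : {x : Var S // x.2 ≠ i0 x.1} →
        {x : Var (fun j => v.res (Sum.elim S T j)) // x.2 ≠ i2 x.1} :=
      fun x => ⟨⟨Sum.inl x.1.1, x.1.2⟩, x.2⟩
    have hf : Function.Injective f := by
      rintro ⟨⟨j, i⟩, h⟩ ⟨⟨j', i'⟩, h'⟩ he
      have h1 := congrArg Subtype.val he
      simp only [f, Sigma.mk.injEq, Sum.inl.injEq] at h1
      obtain ⟨rfl, h2⟩ := h1
      simp only [heq_eq_eq] at h2
      subst h2
      rfl
    have h1 := _root_.SC.H20.eval₂_ne φ2 _ hind (MvPolynomial.rename f q)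
      (fun h => hq (MvPolynomial.rename_injective f hf (by rw [h, map_zero])))
    apply h1
    rw [MvPolynomial.eval₂_rename]
    have h2 : (fun x : {x : Var (fun j => v.res (Sum.elim S T j)) // x.2 ≠ i2 x.1} =>
        w2.red (joinU S T U W x.1)) ∘ f =
        ψ ∘ fun x : {x : Var S // x.2 ≠ i0 x.1} => w'.red (U x.1) := by
      funext x
      exact (hψ _ (hU0 x.1)).symm
    rw [hcomp]
    have h3 := MvPolynomial.eval₂_comp_left ψ φ
      (fun x : {x : Var S // x.2 ≠ i0 x.1} => w'.red (U x.1)) q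
    rw [h0, map_zero] at h3
    rw [← h2] at h3
    exact h3.symm
  obtain ⟨w0, hw0⟩ := hG4 k K L J v S U hS hU
  have hord' := hG4u k K k k' L J v w0 w' S U 1 φ i0 hS hU hw0 hO1 hφ hU0 hi0 hind1
  exact hG4t k K k k' L J v w0 w' S U hord' hw0

/-- C1 -/
theorem c1 (hV2r : T_V2r) (hG1a : T_G1a) (hG4 : T_G4) (hG4u : T_G4u) (hG4t : T_G4t)
    (hG5 : T_G5) (hGD : T_GD) (hGE : T_GE) (hC1g : T_C1g) : T_C1 := by
  intro k K L J J' _ _ _ _ _ _ _ _ _ S T U w hS hT hU hind htr hI hnt
  have hT' : ∀ j, ((T j).up L).Nz := fun j => Sys.up_nz L (hT j)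
  have hW := hG1a L J' (fun j => (T j).up L) hT'
  set M := Gen (fun j => (T j).up L) with hM
  set W := genU (fun j => (T j).up L) with hWdef
  obtain ⟨hWi, w1, hw1⟩ := hGE (kU k U) L M J' w (fun j => (T j).up L) W hT' hW hI
  have hdeg := hGD (kU k U) L M J' w (fun j => (T j).up L) W w1 hT' hW hWi hw1
  have hST : ∀ j, (Sum.elim S T j).Nz := by
    rintro (j | j)
    · exact hS j
    · exact hT j
  have hUW := g3 K L M J J' S T U W hS hT hU hW
  have hUWi : AlgebraicIndependent k (joinU S T U W) := (indep_joinU S T U W).2 ⟨hind, hWi⟩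
  have hmem : ∀ y : M, y ∈ kU k (joinU S T U W) ↔ y ∈ kU (kU k U) W := by
    intro y
    rw [← mem_kU_two, joinU_eq]
    have : kU k (Sum.elim W (algebraMap L M ∘ U) ∘ sumVar (L := L) S T) =
        kU k (Sum.elim W (algebraMap L M ∘ U)) := by
      unfold kU
      congr 1
      exact (sumVar (L := L) S T).surjective.range_comp _
    rw [this]
  -- the valuation over the other base field
  let w2 : DV (kU k (joinU S T U W)) M :=
    { ord := w1.ord
      ord_zero := w1.ord_zero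
      ord_mul := w1.ord_mul
      ord_add := w1.ord_add
      ord_base := fun c => w1.ord_base (⟨c.1, (hmem c.1).1 c.2⟩ : kU (kU k U) W)
      ord_surj := w1.ord_surj }
  have halg : Algebra.IsAlgebraic (kU k (joinU S T U W)) w2.Res := by
    have hfin : Module.Finite (kU (kU k U) W) w1.Res := by
      apply Module.finite_of_finrank_pos
      apply Nat.pos_of_ne_zero
      intro h0
      exact hI (hdeg.symm.trans h0)
    have halg1 : Algebra.IsAlgebraic (kU (kU k U) W) w1.Res := Algebra.IsAlgebraic.of_finite _ _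
    let f : kU k (joinU S T U W) →+* kU (kU k U) W :=
      { toFun := fun x => ⟨x.1, (hmem _).1 x.2⟩
        map_one' := rfl
        map_mul' := fun x y => rfl
        map_zero' := rfl
        map_add' := fun x y => rfl }
    have hf : Function.Surjective f := fun x => ⟨⟨x.1, (hmem _).2 x.2⟩, rfl⟩
    let g : w2.Res →+* w1.Res := RingHom.id w1.Res
    exact Algebra.IsAlgebraic.of_ringHom_of_comp_eq (S := kU (kU k U) W) (B := w1.Res) f g hf
      (fun _ _ h => h) rfl
  have htr' : Algebra.trdeg k K = (Fintype.card (J ⊕ J') + 1 : ℕ) := by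
    rw [htr, Fintype.card_sum]
  have hnt' : ∃ x : K, w2.ord (algebraMap K M x) ≠ 0 := by
    obtain ⟨x, hx⟩ := hnt
    refine ⟨x, ?_⟩
    show w1.ord (algebraMap K M x) ≠ 0
    rw [IsScalarTower.algebraMap_apply K L M, hw1.ordK]
    exact hx
  obtain ⟨v, hv⟩ := hG5 k K M (J ⊕ J') (Sum.elim S T) (joinU S T U W) w2 hST hUW hUWi htr' halg hnt'
  have hGv : Gauss v w S U := gauss_restrict hV2r hG4 hG4u hG4t v S T U W w w2 hS hT hU
    (fun y => hw1.ordK y) hv
  exact ⟨v, hGv, hC1g k K L J J' S T U v w hS hT hU hind hGv⟩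

end Pool.Agent.H15.SC
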