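import Pool.Agent.H93.SC.Targets2
import Pool.Agent.H64.SC.Api
import Pool.Agent.H64.SC.Api2

/-!
Block B5 (MP_f2954d_ag), definitions: local rings at closed points, systems generating a divisor,
hyperplane divisor, very ample divisors (helper15).
-/

namespace SC

section XDefs

variable {K : Type} [Field K] [Algebra ℂ K] {N : ℕ} {w : Fin (N + 1) → K}

/-- `x` lies in the local ring of `X` at the prime `p` of the `i`-th chart -/
def InLoc {i : Fin (N + 1)} (p : Ideal (chart w i)) (x : K) : Prop :=
  ∃ a b : chart w i, b ∉ p ∧ x = (a : K) / (b : K)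

/-- `x` generates `O(D)` at the closed point `p` -/
def GenAt (D : DivZ w) {i : Fin (N + 1)} (p : Ideal (chart w i)) (x : K) : Prop :=
  x ≠ 0 ∧ ∀ v : PDiv w, Through v p → v.1.ord x + D v = 0

/-- the system `S` of sections of `O(D)` generates `O(D)` at all closed points -/
def GenSys (D : DivZ w) (S : Sys K) : Prop :=
  (∀ j, S.s j ∈ sections D) ∧
    ∀ i, w i ≠ 0 → ∀ p : Ideal (chart w i), p.IsMaximal → ∃ j, GenAt D p (S.s j)

variable (w) in
/-- the system of the homogeneous coordinates -/
@[reducible] def wsys : Sys K := ⟨N + 1, w⟩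

variable (w) in
/-- the system of the homogeneous coordinates divided by the `i₀`-th one -/
@[reducible] def hsys (i₀ : Fin (N + 1)) : Sys K := ⟨N + 1, fun j => w j / w i₀⟩

/-- `H₀` is the divisor of the hyperplane section `w i₀ = 0` -/
def IsHyp (i₀ : Fin (N + 1)) (H₀ : DivZ w) : Prop :=
  w i₀ ≠ 0 ∧ ∀ v : PDiv w, H₀ v = v.1.ord (w i₀) - v.1.mo (wsys w)

/-- very ample divisors: hyperplane divisor plus a globally generated one -/
def VAmp (H₀ D : DivZ w) : Prop := GloballyGenerated (D - H₀)

/-- a system of sections of the very ample divisor `D` with all the good properties: it generates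
`O(D)` and contains all products of the coordinates with a system generating `O(D - H₀)` -/
def Nice (i₀ : Fin (N + 1)) (H₀ D : DivZ w) (T : Sys K) : Prop :=
  GenSys D T ∧ ∃ S, GenSys (D - H₀) S ∧ ∀ j l, ∃ t, T.s t = w j / w i₀ * S.s l

end XDefs

end SC
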