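import Pool.Agent.H15.SC.Ms

/-!
Block B5 (MP_f2954d_ag): assembly of the abstract intersection theory and of the kernel theorem
from its parts (helper15).
-/

namespace SC

open SCB

theorem GEY : T_IN → T_GEC → T_GEP → T_GES → T_GEY := by
  intro hIN hGEC hGEP hGES K _ _ N n w i₀ H₀ μ hw hn hH hμ
  obtain ⟨h1, h2, h3, h4⟩ := hIN K N n w μ hμ
  obtain ⟨c1, c2, c3, c4⟩ := hGEC K N n w i₀ H₀ μ hw hH
  obtain ⟨p1, p2, p3, p4, p5⟩ := hGEP K N n w i₀ H₀ μ hw (by omega) hH hμ
  exact ⟨{
    I := INS μ
    add := h2
    smul := h3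
    nondeg := fun x hx => h4 x (by omega) hx
    G := GNS μ H₀
    G_nonempty := c1
    G_add := c2
    G_smul := c3
    G_open := c4
    cl := fun v => (NTsub μ).mkQ (Finsupp.single v 1)
    pos := p1
    posD := p2
    nonnegDD := p3
    lor := p4
    lorD := p5
    siu := hGES K N n w i₀ H₀ μ hw hH hμ }, rfl, rfl, rfl⟩

theorem FIN : T_FIN := by
  intro hFD hKT hGE hIN hNEF hNDI hKRN hXN K _ _ N m w hm hw μ hμ L hL hsup η
  obtain ⟨i₀, hi₀⟩ := hw.nonzero
  obtain ⟨⟨H₀, hH⟩, -⟩ := hXN K N (m + 2) w hw i₀ hi₀
  have hfd : FiniteDimensional ℝ (NS μ) := hFD K N (m + 2) w μ hw (by omega) hμ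
  obtain ⟨X, hI, hG, hcl⟩ := hGE K N (m + 2) w i₀ H₀ μ hw (by omega) hH hμ
  have hker : ∀ η : DivR w, InKernel μ L η ↔
      X.Ker (fun i => (NTsub μ).mkQ (L i)) ((NTsub μ).mkQ η) := by
    intro η
    rw [hKRN K N m w μ hμ L η]
    unfold Geo.Ker
    rw [hI]
  constructor
  · intro hη
    have hthm := hKT (NS μ) (PDiv w) (Fin m) (m + 2) X (by simp)
      (fun i => (NTsub μ).mkQ (L i)) ?_ ?_
    · have h1 := hthm _ ((hker η).1 hη)
      -- membership in the span
      have h2 : ∀ x ∈ X.V (fun i => (NTsub μ).mkQ (L i)), ∃ E : DivR w,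
          (∀ D ∈ E.support, InKernel μ L (Finsupp.single D 1)) ∧ (NTsub μ).mkQ E = x := by
        intro x hx
        unfold Geo.V at hx
        induction hx using Submodule.span_induction with
        | mem x hx =>
          obtain ⟨D, hD, rfl⟩ := hx
          refine ⟨Finsupp.single D 1, ?_, ?_⟩
          · intro D' hD'
            have : D' = D := by
              classical
              have := Finsupp.support_single_subset hD'
              simpa using this
            subst this
            rw [hker]
            have h3 : X.Ker (fun i => (NTsub μ).mkQ (L i)) (X.cl D') := hD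
            rw [hcl] at h3
            exact h3
          · rw [hcl]
        | zero => exact ⟨0, by simp, by simp⟩
        | add x y _ _ hx hy =>
          obtain ⟨E, hE, rfl⟩ := hx
          obtain ⟨F, hF, rfl⟩ := hy
          refine ⟨E + F, ?_, by simp⟩
          intro D hD
          classical
          rcases Finset.mem_union.1 (Finsupp.support_add hD) with h | h
          · exact hE D h
          · exact hF D h
        | smul c x _ hx =>
          obtain ⟨E, hE, rfl⟩ := hx
          refine ⟨c • E, ?_, by simp⟩
          intro D hD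
          exact hE D (Finsupp.support_smul hD)
      obtain ⟨E, hE, hE'⟩ := h2 _ h1
      refine ⟨E, hE, ?_⟩
      have h4 : η - E ∈ NTsub μ := by
        exact (Submodule.Quotient.eq (NTsub μ)).1 hE'.symm
      exact h4
    · intro i g hg ε hε
      rw [hG] at hg ⊢
      exact hNEF K N (m + 2) w i₀ H₀ μ hw hH (L i) (hL i) g hg ε hε
    · intro J hJ
      obtain ⟨s, hs, hs'⟩ := hNDI K N (m + 2) w μ hμ _ _ (hsup J hJ)
      refine ⟨s, hs, ?_⟩
      rw [hI]
      simpa using hs'
  · rintro ⟨E, hE, hE'⟩
    have h5 : (NTsub μ).mkQ η = (NTsub μ).mkQ E := by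
      exact (Submodule.Quotient.eq (NTsub μ)).2 hE'
    rw [hker, h5, ← hker]
    intro γ
    have h6 : ∀ D ∈ E.support, μ (Fin.append L ![Finsupp.single D 1, γ]) = 0 := fun D hD =>
      hE D hD γ
    have happ : ∀ x : DivR w, Fin.append L ![x, γ] =
        Function.update (Fin.append L ![0, γ]) (Fin.natAdd m 0) x := by
      intro x
      funext i
      refine Fin.addCases (fun i => ?_) (fun i => ?_) i
      · rw [Fin.append_left, Function.update_of_ne, Fin.append_left]
        intro h
        have := congrArg Fin.val h
        simp at this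
        omega
      · fin_cases i
        · simp
        · rw [Function.update_of_ne]
          · simp
          · intro h
            have := congrArg Fin.val h
            simp at this
    rw [happ, ← Finsupp.sum_single E, Finsupp.sum]
    rw [MultilinearMap.map_update_sum]
    refine Finset.sum_eq_zero fun D hD => ?_
    have h7 : Finsupp.single D (E D) = E D • Finsupp.single D (1 : ℝ) := by simp
    rw [h7, MultilinearMap.map_update_smul, ← happ, h6 D hD, smul_zero]

end SC
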