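import Pool.Agent.H15.SC.TargetsX
import Pool.Agent.H16.SC.Targets

/-!
Block B5 (MP_f2954d_ag), part 2: the intersection form is the index; positivity, Hodge index,
decomposition of big classes, final assembly (helper15).
-/

namespace SC

open SCB

/-! ### Polarisation and the intersection form -/

/-- YPOL: polarisation for a symmetric function which is additive on a semigroup -/
def T_YPOL : Prop := ∀ (M : Type) [AddCommGroup M] (V : Set M) (n : ℕ) (f : (Fin n → M) → ℝ),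
  1 ≤ n → (∀ a ∈ V, ∀ b ∈ V, a + b ∈ V) →
  (∀ x : Fin n → M, (∀ i, x i ∈ V) → ∀ i, ∀ a ∈ V, ∀ b ∈ V,
    f (Function.update x i (a + b)) = f (Function.update x i a) + f (Function.update x i b)) →
  (∀ (σ : Equiv.Perm (Fin n)) (x : Fin n → M), f (fun i => x (σ i)) = f x) →
  (∀ a ∈ V, f (fun _ => a) = 0) → ∀ x : Fin n → M, (∀ i, x i ∈ V) → f x = 0

/-- MX0: the self-intersection number of a very ample divisor is an index -/
def T_MX0 : Prop := ∀ (K : Type) [Field K] [Algebra ℂ K] (N n : ℕ) (w : Fin (N + 1) → K)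
  (i₀ : Fin (N + 1)) (H₀ : DivZ w) (μ : MultilinearMap ℝ (fun _ : Fin n => DivR w) ℝ),
  IsSmoothProj w n → 1 ≤ n → IsHyp i₀ H₀ → IsIntersectionForm μ →
  ∀ (D : DivZ w) (T : Sys K), Nice i₀ H₀ D T →
  μ (fun _ => toR D) = (Idx (fun _ : Fin n => T) ℂ : ℝ)

/-- MX: the intersection numbers of very ample divisors are indices -/
def T_MX : Prop := ∀ (K : Type) [Field K] [Algebra ℂ K] (N n : ℕ) (w : Fin (N + 1) → K)
  (i₀ : Fin (N + 1)) (H₀ : DivZ w) (μ : MultilinearMap ℝ (fun _ : Fin n => DivR w) ℝ),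
  IsSmoothProj w n → 1 ≤ n → IsHyp i₀ H₀ → IsIntersectionForm μ →
  ∀ (J : Type) [Fintype J] (D : J → DivZ w) (T : J → Sys K), Fintype.card J = n →
  (∀ j, Nice i₀ H₀ (D j) (T j)) →
  ofMulti μ (ms fun j => toR (D j)) = (Idx T ℂ : ℝ)

/-- SPN: every real divisor is a real combination of very ample divisors, with a difference of
two very ample divisors for integral ones -/
def T_SPN : Prop := ∀ (K : Type) [Field K] [Algebra ℂ K] (N n : ℕ) (w : Fin (N + 1) → K)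
  (i₀ : Fin (N + 1)) (H₀ : DivZ w), IsSmoothProj w n → IsHyp i₀ H₀ →
  (∀ D : DivZ w, ∃ A B : DivZ w, VAmp H₀ A ∧ VAmp H₀ B ∧ D = A - B) ∧
  (∀ E : DivR w, E ∈ Submodule.span ℝ {x | ∃ A : DivZ w, VAmp H₀ A ∧ x = toR A}) ∧
  (∀ (H : DivZ w) (E : DivR w), Ample H → ∃ t : ℝ, 0 < t ∧
    toR H + t • E ∈ Cone {x | ∃ A : DivZ w, VAmp H₀ A ∧ ∃ q : ℚ, 0 < q ∧ x = (q : ℝ) • toR A})

/-- IV: the index of generating systems on `X` and on the prime divisors: sum over the prime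
divisors of `X` -/
def T_IV : Prop := ∀ (K : Type) [Field K] [Algebra ℂ K] (N n : ℕ) (w : Fin (N + 1) → K),
  IsSmoothProj w n → ∀ (J : Type) [Fintype J] (D : J → DivZ w) (T : J → Sys K) (E : DivZ w)
  (S : Sys K), Fintype.card J + 1 = n → (∀ j, GenSys (D j) (T j)) → GenSys E S →
  (Idx (Sum.elim (fun _ : Unit => S) T) ℂ : ℤ) =
    E.sum fun v z => z * (Idx (fun j => v.1.res (T j)) ℂ : ℤ)

/-- MD: intersection with a prime divisor -/
def T_MD : Prop := ∀ (K : Type) [Field K] [Algebra ℂ K] (N n : ℕ) (w : Fin (N + 1) → K)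
  (i₀ : Fin (N + 1)) (H₀ : DivZ w) (μ : MultilinearMap ℝ (fun _ : Fin n => DivR w) ℝ),
  IsSmoothProj w n → 1 ≤ n → IsHyp i₀ H₀ → IsIntersectionForm μ →
  ∀ (J : Type) [Fintype J] (D : J → DivZ w) (T : J → Sys K), Fintype.card J + 1 = n →
  (∀ j, Nice i₀ H₀ (D j) (T j)) → ∀ v : PDiv w,
  ofMulti μ (Finsupp.single v 1 ::ₘ ms fun j => toR (D j)) =
    (Idx (fun j => v.1.res (T j)) ℂ : ℝ)

/-! ### Positivity -/

/-- PX: intersection numbers of very ample divisors are positive -/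
def T_PX : Prop := ∀ (K : Type) [Field K] [Algebra ℂ K] (N n : ℕ) (w : Fin (N + 1) → K)
  (i₀ : Fin (N + 1)) (H₀ : DivZ w), IsSmoothProj w n → IsHyp i₀ H₀ →
  ∀ (J : Type) [Fintype J] (D : J → DivZ w) (T : J → Sys K), (∀ j, Nice i₀ H₀ (D j) (T j)) →
  (Fintype.card J = n → Idx T ℂ ≠ 0) ∧
  (Fintype.card J + 1 = n → ∀ v : PDiv w, Idx (fun j => v.1.res (T j)) ℂ ≠ 0)

/-- MDD: two different prime divisors -/
def T_MDD : Prop := ∀ (K : Type) [Field K] [Algebra ℂ K] (N n : ℕ) (w : Fin (N + 1) → K)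
  (i₀ : Fin (N + 1)) (H₀ : DivZ w) (μ : MultilinearMap ℝ (fun _ : Fin n => DivR w) ℝ),
  IsSmoothProj w n → IsHyp i₀ H₀ → IsIntersectionForm μ →
  ∀ (J : Type) [Fintype J] (D : J → DivZ w), Fintype.card J + 2 = n →
  (∀ j, VAmp H₀ (D j)) → ∀ v v' : PDiv w, v ≠ v' →
  0 ≤ ofMulti μ (Finsupp.single v 1 ::ₘ Finsupp.single v' 1 ::ₘ ms fun j => toR (D j))

/-! ### Lorentzian forms -/

/-- YLL: linear algebra: from reverse Cauchy-Schwarz on a spanning semigroup to a Lorentzian form -/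
def T_YLL : Prop := ∀ (M : Type) [AddCommGroup M] [Module ℝ M] (q : M → M → ℝ) (V : Set M),
  SymBil q → (∀ a ∈ V, ∀ b ∈ V, a + b ∈ V) → (∀ x : M, x ∈ Submodule.span ℝ V) →
  (∀ a ∈ V, ∀ b ∈ V, 0 < q a b) → (∀ a ∈ V, ∀ b ∈ V, q a a * q b b ≤ q a b ^ 2) → Lor q

/-- HX: Hodge index inequality for two systems and a generic complete intersection -/
def T_HX : Prop := ∀ (k K J : Type) [Field k] [CharZero k] [Field K] [Algebra k K]
  [Algebra.EssFiniteType k K] [Fintype J] (S : J → Sys K) (A B : Sys K),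
  (∀ j, (S j).Nz) → A.Nz → B.Nz → Generates k A → Generates k B →
  Algebra.trdeg k K = (Fintype.card J + 2 : ℕ) →
  Idx (Sum.elim S ![A, A]) k * Idx (Sum.elim S ![B, B]) k ≤ Idx (Sum.elim S ![A, B]) k ^ 2

/-- LF: the form given by `n - 2` very ample divisors is Lorentzian -/
def T_LF : Prop := ∀ (K : Type) [Field K] [Algebra ℂ K] (N n : ℕ) (w : Fin (N + 1) → K)
  (i₀ : Fin (N + 1)) (H₀ : DivZ w) (μ : MultilinearMap ℝ (fun _ : Fin n => DivR w) ℝ),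
  IsSmoothProj w n → IsHyp i₀ H₀ → IsIntersectionForm μ →
  ∀ (J : Type) [Fintype J] (D : J → DivZ w), Fintype.card J + 2 = n → (∀ j, VAmp H₀ (D j)) →
  Lor (fun x y : DivR w => ofMulti μ (x ::ₘ y ::ₘ ms fun j => toR (D j)))

/-- LG: the form given by a prime divisor and `n - 3` very ample divisors is Lorentzian -/
def T_LG : Prop := ∀ (K : Type) [Field K] [Algebra ℂ K] (N n : ℕ) (w : Fin (N + 1) → K)
  (i₀ : Fin (N + 1)) (H₀ : DivZ w) (μ : MultilinearMap ℝ (fun _ : Fin n => DivR w) ℝ),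
  IsSmoothProj w n → IsHyp i₀ H₀ → IsIntersectionForm μ →
  ∀ (J : Type) [Fintype J] (D : J → DivZ w), Fintype.card J + 3 = n → (∀ j, VAmp H₀ (D j)) →
  ∀ v : PDiv w,
  Lor (fun x y : DivR w =>
    ofMulti μ (Finsupp.single v 1 ::ₘ x ::ₘ y ::ₘ ms fun j => toR (D j)))

/-! ### Decomposition of a big class on a generic threefold -/

/-- SG: a section on the generic threefold -/
def T_SG : Prop := ∀ (K L J : Type) [Field K] [Algebra ℂ K] [Field L] [Algebra K L] [Algebra ℂ L]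
  [IsScalarTower ℂ K L] [Algebra.EssFiniteType ℂ K] [Fintype J] (S : J → Sys K) (U : Var S → L)
  (G B : Sys K), (∀ j, (S j).Nz) → G.Nz → B.Nz → Generates ℂ G →
  Generates ℂ B → IsGen S U → Algebra.trdeg ℂ K = (Fintype.card J + 3 : ℕ) →
  3 * Idx (Sum.elim S ![G, G, B]) ℂ < Idx (Sum.elim S ![G, G, G]) ℂ →
  AlgebraicIndependent ℂ U ∧ ∃ m : ℕ, 1 ≤ m ∧ ∃ g ∈ Hs (kU ℂ U)
    [((m : ℤ), G.up L), (-(m : ℤ), B.up L)], g ≠ 0

/-- the valuations of the generic threefold which matter -/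
def Rel (K L J : Type) [Field K] [Algebra ℂ K] [Field L] [Algebra K L] [Algebra ℂ L]
    (S : J → Sys K) (U : Var S → L) (T₀ : Sys K) (u : DV (kU ℂ U) L) : Prop :=
  Idx (fun _ : Fin 2 => u.res (T₀.up L)) (kU ℂ U) ≠ 0

/-- SD: decomposition over the valuations of the generic threefold -/
def T_SD : Prop := ∀ (K L J : Type) [Field K] [Algebra ℂ K] [Field L] [Algebra K L] [Algebra ℂ L]
  [IsScalarTower ℂ K L] [Algebra.EssFiniteType ℂ K] [Fintype J] (S : J → Sys K) (U : Var S → L)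
  (G B T₀ : Sys K), (∀ j, (S j).Nz) → G.Nz → B.Nz → T₀.Nz →
  IsGen S U → AlgebraicIndependent ℂ U → Algebra.trdeg ℂ K = (Fintype.card J + 3 : ℕ) →
  ∀ (m : ℕ) (g : L), 1 ≤ m → g ∈ Hs (kU ℂ U) [((m : ℤ), G.up L), (-(m : ℤ), B.up L)] → g ≠ 0 →
  ∃ R : Finset (DV (kU ℂ U) L), (∀ u ∈ R, Rel K L J S U T₀ u) ∧
  ∃ c : DV (kU ℂ U) L → ℕ, ∀ A A' : Sys K, A.Nz → A'.Nz →
    (∀ u : DV (kU ℂ U) L, Idx ![u.res (A.up L), u.res (A'.up L)] (kU ℂ U) ≠ 0 →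
      Rel K L J S U T₀ u) →
    (m : ℤ) * ((Idx (Sum.elim S ![G, A, A']) ℂ : ℤ) - Idx (Sum.elim S ![B, A, A']) ℂ) =
      ∑ u ∈ R, (c u : ℤ) * Idx ![u.res (A.up L), u.res (A'.up L)] (kU ℂ U)

/-- SR: the relevant valuations do not depend on the very ample divisors used -/
def T_SR : Prop := ∀ (K : Type) [Field K] [Algebra ℂ K] (N n : ℕ) (w : Fin (N + 1) → K)
  (i₀ : Fin (N + 1)) (H₀ : DivZ w), IsSmoothProj w n → IsHyp i₀ H₀ →
  ∀ (L J : Type) [Field L] [Algebra K L] [Algebra ℂ L] [IsScalarTower ℂ K L] [Fintype J]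
  (S : J → Sys K) (D : J → DivZ w) (U : Var S → L), Fintype.card J + 3 = n →
  (∀ j, Nice i₀ H₀ (D j) (S j)) → IsGen S U → AlgebraicIndependent ℂ U →
  ∀ (A₁ A₂ A₃ A₄ : DivZ w) (T₁ T₂ T₃ T₄ : Sys K), Nice i₀ H₀ A₁ T₁ → Nice i₀ H₀ A₂ T₂ →
  Nice i₀ H₀ A₃ T₃ → Nice i₀ H₀ A₄ T₄ → ∀ u : DV (kU ℂ U) L,
  Idx ![u.res (T₁.up L), u.res (T₂.up L)] (kU ℂ U) ≠ 0 →
  Idx ![u.res (T₃.up L), u.res (T₄.up L)] (kU ℂ U) ≠ 0

/-- type P divisors, integral version -/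
def TPI {K : Type} [Field K] [Algebra ℂ K] {N n : ℕ} {w : Fin (N + 1) → K} (H₀ : DivZ w)
    (μ : MultilinearMap ℝ (fun _ : Fin n => DivR w) ℝ) {J : Type} [Fintype J] [DecidableEq J]
    (D : J → DivZ w) (δ : DivR w) : Prop :=
  (∀ A A' : DivZ w, VAmp H₀ A → VAmp H₀ A' →
    0 ≤ ofMulti μ (δ ::ₘ toR A ::ₘ toR A' ::ₘ ms fun j => toR (D j))) ∧
  Lor (fun x y => ofMulti μ (δ ::ₘ x ::ₘ y ::ₘ ms fun j => toR (D j))) ∧
  ∃ j : J, ∀ G B A : DivZ w, VAmp H₀ G → VAmp H₀ B → VAmp H₀ A →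
    3 * ofMulti μ (toR G ::ₘ toR G ::ₘ toR B ::ₘ toR A ::ₘ
        mss (Finset.univ.erase j) fun j => toR (D j)) <
      ofMulti μ (toR G ::ₘ toR G ::ₘ toR G ::ₘ toR A ::ₘ
        mss (Finset.univ.erase j) fun j => toR (D j)) →
    0 ≤ ofMulti μ (δ ::ₘ (toR G - toR B) ::ₘ toR A ::ₘ ms fun j => toR (D j))

open Classical in
/-- SE: the class of a relevant valuation of the generic threefold -/
def T_SE : Prop := ∀ (K : Type) [Field K] [Algebra ℂ K] (N n : ℕ) (w : Fin (N + 1) → K)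
  (i₀ : Fin (N + 1)) (H₀ : DivZ w) (μ : MultilinearMap ℝ (fun _ : Fin n => DivR w) ℝ),
  IsSmoothProj w n → IsHyp i₀ H₀ → IsIntersectionForm μ →
  ∀ (L J : Type) [Field L] [Algebra K L] [Algebra ℂ L] [IsScalarTower ℂ K L] [Fintype J]
  (S : J → Sys K) (D : J → DivZ w) (U : Var S → L), Fintype.card J + 3 = n →
  (∀ j, Nice i₀ H₀ (D j) (S j)) → IsGen S U → AlgebraicIndependent ℂ U →
  ∀ (A₀ : DivZ w) (T₀ : Sys K), Nice i₀ H₀ A₀ T₀ → ∀ u : DV (kU ℂ U) L, Rel K L J S U T₀ u →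
  ∃ δ : DivR w, (∀ (A A' : DivZ w) (T T' : Sys K), Nice i₀ H₀ A T → Nice i₀ H₀ A' T' →
    ofMulti μ (δ ::ₘ toR A ::ₘ toR A' ::ₘ ms fun j => toR (D j)) =
      (Idx ![u.res (T.up L), u.res (T'.up L)] (kU ℂ U) : ℝ)) ∧
    ((∃ v : PDiv w, δ = Finsupp.single v 1) ∨ TPI H₀ μ D δ)

open Classical in
/-- SX: decomposition of a big class of a generic threefold, integral version -/
def T_SX : Prop := ∀ (K : Type) [Field K] [Algebra ℂ K] (N n : ℕ) (w : Fin (N + 1) → K)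
  (i₀ : Fin (N + 1)) (H₀ : DivZ w) (μ : MultilinearMap ℝ (fun _ : Fin n => DivR w) ℝ),
  IsSmoothProj w n → IsHyp i₀ H₀ → IsIntersectionForm μ →
  ∀ (J : Type) [Fintype J] (D : J → DivZ w), Fintype.card J + 3 = n → (∀ j, VAmp H₀ (D j)) →
  ∀ G B : DivZ w, VAmp H₀ G → VAmp H₀ B →
  3 * ofMulti μ (toR G ::ₘ toR G ::ₘ toR B ::ₘ ms fun j => toR (D j)) <
    ofMulti μ (toR G ::ₘ toR G ::ₘ toR G ::ₘ ms fun j => toR (D j)) →
  ∃ (r : ℕ) (c : Fin r → ℝ) (δ : Fin r → DivR w), (∀ i, 0 ≤ c i) ∧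
    (∀ x y : DivR w, ofMulti μ ((toR G - toR B) ::ₘ x ::ₘ y ::ₘ ms fun j => toR (D j)) =
      ∑ i, c i * ofMulti μ (δ i ::ₘ x ::ₘ y ::ₘ ms fun j => toR (D j))) ∧
    ∀ i, (∃ v : PDiv w, δ i = Finsupp.single v 1) ∨ TPI H₀ μ D (δ i)

/-! ### Assembly -/

section

variable {K : Type} [Field K] [Algebra ℂ K] {N : ℕ} {w : Fin (N + 1) → K} {n : ℕ}
  (μ : MultilinearMap ℝ (fun _ : Fin n => DivR w) ℝ)

/-- numerically trivial divisors -/
def NTsub : Submodule ℝ (DivR w) where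
  carrier := {D | NumTrivial μ D}
  zero_mem' := by
    rintro E ⟨i, hi⟩
    exact μ.map_coord_zero i hi
  add_mem' := by
    classical
    rintro a b ha hb E ⟨i, hi⟩
    have h := μ.map_update_add E i a b
    rw [← hi, Function.update_eq_self] at h
    rw [h, ha _ ⟨i, by simp⟩, hb _ ⟨i, by simp⟩, add_zero]
  smul_mem' := by
    classical
    rintro c a ha E ⟨i, hi⟩
    have h := μ.map_update_smul E i c a
    rw [← hi, Function.update_eq_self] at h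
    rw [h, ha _ ⟨i, by simp⟩, smul_zero]

/-- the real Neron-Severi space -/
abbrev NS : Type := DivR w ⧸ NTsub μ

/-- FD (block B7): the Neron-Severi space is finite dimensional -/
def T_FD : Prop := ∀ (K : Type) [Field K] [Algebra ℂ K] (N n : ℕ) (w : Fin (N + 1) → K)
  (μ : MultilinearMap ℝ (fun _ : Fin n => DivR w) ℝ), IsSmoothProj w n → 3 ≤ n →
  IsIntersectionForm μ → FiniteDimensional ℝ (NS μ)

/-- intersection numbers of classes -/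
noncomputable def INS (s : Multiset (NS μ)) : ℝ := ofMulti μ (s.map Quotient.out)

/-- positive rational multiples of the classes of very ample divisors -/
def GNS (H₀ : DivZ w) : Set (NS μ) :=
  {x | ∃ A : DivZ w, VAmp H₀ A ∧ ∃ q : ℚ, 0 < q ∧ x = (q : ℝ) • (NTsub μ).mkQ (toR A)}

end

/-- IN: the intersection numbers of classes -/
def T_IN : Prop := ∀ (K : Type) [Field K] [Algebra ℂ K] (N n : ℕ) (w : Fin (N + 1) → K)
  (μ : MultilinearMap ℝ (fun _ : Fin n => DivR w) ℝ), IsIntersectionForm μ →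
  (∀ s : Multiset (DivR w), s.card = n → INS μ (s.map (NTsub μ).mkQ) = ofMulti μ s) ∧
  (∀ (a b : NS μ) (s : Multiset (NS μ)), s.card + 1 = n →
    INS μ ((a + b) ::ₘ s) = INS μ (a ::ₘ s) + INS μ (b ::ₘ s)) ∧
  (∀ (c : ℝ) (a : NS μ) (s : Multiset (NS μ)), s.card + 1 = n →
    INS μ ((c • a) ::ₘ s) = c * INS μ (a ::ₘ s)) ∧
  ∀ x : NS μ, 1 ≤ n → (∀ s : Multiset (NS μ), s.card + 1 = n → INS μ (x ::ₘ s) = 0) → x = 0

/-- REP: multisets of elements of `GNS` -/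
def T_REP : Prop := ∀ (K : Type) [Field K] [Algebra ℂ K] (N n : ℕ) (w : Fin (N + 1) → K)
  (H₀ : DivZ w) (μ : MultilinearMap ℝ (fun _ : Fin n => DivR w) ℝ) (s : Multiset (NS μ)),
  (∀ a ∈ s, a ∈ GNS μ H₀) → ∃ (D : Fin s.card → DivZ w) (q : Fin s.card → ℚ),
    (∀ i, VAmp H₀ (D i) ∧ 0 < q i) ∧ s = ms fun i => (q i : ℝ) • (NTsub μ).mkQ (toR (D i))

/-- SCL: scaling of some factors -/
def T_SCL : Prop := ∀ (K : Type) [Field K] [Algebra ℂ K] (N n : ℕ) (w : Fin (N + 1) → K)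
  (μ : MultilinearMap ℝ (fun _ : Fin n => DivR w) ℝ), IsIntersectionForm μ →
  ∀ (ι : Type) (S : Finset ι) (q : ι → ℝ) (x : ι → NS μ) (t : Multiset (NS μ)),
  t.card + S.card = n →
  INS μ (t + mss S (fun i => q i • x i)) = (∏ i ∈ S, q i) * INS μ (t + mss S x)

/-- GEC: properties of the cone -/
def T_GEC : Prop := ∀ (K : Type) [Field K] [Algebra ℂ K] (N n : ℕ) (w : Fin (N + 1) → K)
  (i₀ : Fin (N + 1)) (H₀ : DivZ w) (μ : MultilinearMap ℝ (fun _ : Fin n => DivR w) ℝ),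
  IsSmoothProj w n → IsHyp i₀ H₀ → (GNS μ H₀).Nonempty ∧
  (∀ a ∈ GNS μ H₀, ∀ b ∈ GNS μ H₀, a + b ∈ GNS μ H₀) ∧
  (∀ a ∈ GNS μ H₀, ∀ q : ℚ, 0 < q → (q : ℝ) • a ∈ GNS μ H₀) ∧
  (∀ g ∈ GNS μ H₀, ∀ x : NS μ, ∃ t : ℝ, 0 < t ∧ g + t • x ∈ Cone (GNS μ H₀))

/-- GEP: positivity properties -/
def T_GEP : Prop := ∀ (K : Type) [Field K] [Algebra ℂ K] (N n : ℕ) (w : Fin (N + 1) → K)
  (i₀ : Fin (N + 1)) (H₀ : DivZ w) (μ : MultilinearMap ℝ (fun _ : Fin n => DivR w) ℝ),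
  IsSmoothProj w n → 1 ≤ n → IsHyp i₀ H₀ → IsIntersectionForm μ →
  (∀ s : Multiset (NS μ), s.card = n → (∀ a ∈ s, a ∈ GNS μ H₀) → 0 < INS μ s) ∧
  (∀ (v : PDiv w) (s : Multiset (NS μ)), s.card + 1 = n → (∀ a ∈ s, a ∈ GNS μ H₀) →
    0 < INS μ ((NTsub μ).mkQ (Finsupp.single v 1) ::ₘ s)) ∧
  (∀ v v' : PDiv w, v ≠ v' → ∀ s : Multiset (NS μ), s.card + 2 = n → (∀ a ∈ s, a ∈ GNS μ H₀) →
    0 ≤ INS μ ((NTsub μ).mkQ (Finsupp.single v 1) ::ₘ (NTsub μ).mkQ (Finsupp.single v' 1) ::ₘ s)) ∧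
  (∀ s : Multiset (NS μ), s.card + 2 = n → (∀ a ∈ s, a ∈ GNS μ H₀) →
    Lor (fun x y => INS μ (x ::ₘ y ::ₘ s))) ∧
  (∀ (v : PDiv w) (s : Multiset (NS μ)), s.card + 3 = n → (∀ a ∈ s, a ∈ GNS μ H₀) →
    Lor (fun x y => INS μ ((NTsub μ).mkQ (Finsupp.single v 1) ::ₘ x ::ₘ y ::ₘ s)))

/-- GES: decomposition of a big class of a threefold, for classes -/
def T_GES : Prop := ∀ (K : Type) [Field K] [Algebra ℂ K] (N n : ℕ) (w : Fin (N + 1) → K)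
  (i₀ : Fin (N + 1)) (H₀ : DivZ w) (μ : MultilinearMap ℝ (fun _ : Fin n => DivR w) ℝ),
  IsSmoothProj w n → IsHyp i₀ H₀ → IsIntersectionForm μ →
  ∀ h : Multiset (NS μ), h.card + 3 = n → (∀ a ∈ h, a ∈ GNS μ H₀) →
  ∀ g ∈ GNS μ H₀, ∀ b ∈ GNS μ H₀,
    3 * INS μ (g ::ₘ g ::ₘ b ::ₘ h) < INS μ (g ::ₘ g ::ₘ g ::ₘ h) →
    ∃ (r : ℕ) (c : Fin r → ℝ) (δ : Fin r → NS μ), (∀ i, 0 ≤ c i) ∧
      (∀ x y, INS μ ((g - b) ::ₘ x ::ₘ y ::ₘ h) = ∑ i, c i * INS μ (δ i ::ₘ x ::ₘ y ::ₘ h)) ∧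
      ∀ i, (∃ v : PDiv w, δ i = (NTsub μ).mkQ (Finsupp.single v 1)) ∨
        TypeP (INS μ) (GNS μ H₀) h (δ i)

/-- GEY: the abstract intersection theory of `X` -/
def T_GEY : Prop := ∀ (K : Type) [Field K] [Algebra ℂ K] (N n : ℕ) (w : Fin (N + 1) → K)
  (i₀ : Fin (N + 1)) (H₀ : DivZ w) (μ : MultilinearMap ℝ (fun _ : Fin n => DivR w) ℝ),
  IsSmoothProj w n → 3 ≤ n → IsHyp i₀ H₀ → IsIntersectionForm μ →
  ∃ X : Geo (NS μ) (PDiv w) n, X.I = INS μ ∧ X.G = GNS μ H₀ ∧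
    X.cl = fun v => (NTsub μ).mkQ (Finsupp.single v 1)

/-- NEF: nef classes satisfy the algebraic condition -/
def T_NEF : Prop := ∀ (K : Type) [Field K] [Algebra ℂ K] (N n : ℕ) (w : Fin (N + 1) → K)
  (i₀ : Fin (N + 1)) (H₀ : DivZ w) (μ : MultilinearMap ℝ (fun _ : Fin n => DivR w) ℝ),
  IsSmoothProj w n → IsHyp i₀ H₀ → ∀ L : DivR w, NefClass μ L → ∀ g ∈ GNS μ H₀, ∀ ε : ℝ, 0 < ε →
  (NTsub μ).mkQ L + ε • g ∈ Cone (GNS μ H₀)

/-- NDI: numerical dimension in terms of multisets -/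
def T_NDI : Prop := ∀ (K : Type) [Field K] [Algebra ℂ K] (N n : ℕ) (w : Fin (N + 1) → K)
  (μ : MultilinearMap ℝ (fun _ : Fin n => DivR w) ℝ), IsIntersectionForm μ →
  ∀ (L : DivR w) (k : ℕ), NumDimGe μ L k → ∃ s : Multiset (NS μ), k + s.card = n ∧
    INS μ (Multiset.replicate k ((NTsub μ).mkQ L) + s) ≠ 0

/-- KRN: the kernel in terms of multisets -/
def T_KRN : Prop := ∀ (K : Type) [Field K] [Algebra ℂ K] (N m : ℕ) (w : Fin (N + 1) → K)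
  (μ : MultilinearMap ℝ (fun _ : Fin (m + 2) => DivR w) ℝ), IsIntersectionForm μ →
  ∀ (L : Fin m → DivR w) (η : DivR w), InKernel μ L η ↔
    ∀ y : NS μ, INS μ ((NTsub μ).mkQ η ::ₘ y ::ₘ ms fun i => (NTsub μ).mkQ (L i)) = 0

/-- FIN: the kernel theorem from its parts -/
def T_FIN : Prop := T_FD → T_KT → T_GEY → T_IN → T_NEF → T_NDI → T_KRN → T_XN → KernelTheorem

end SC
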